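import Pool.Agent.helper81.CI.Spec

/-!
# Project ci, module TSI: the good parameter
-/

set_option autoImplicit false

open MeasureTheory Set Filter Topology
open scoped ENNReal
open Pool.Agent.helper81.CW Pool.Agent.CL

noncomputable section

namespace Pool.Agent.CI

lemma TSI_num {n : ℕ} (hn : 1 ≤ n) {t : ℝ} (ht0 : 0 ≤ t) (ht : t ≤ 2 * n) :
    (2 + √(2 * Real.pi * t)) * (2 + √(2 * Real.pi * t)) ≤ 31 * (n : ℝ) := by
  have hn1 : (1 : ℝ) ≤ n := by exact_mod_cast hn
  have hpi : Real.pi < 3.15 := Real.pi_lt_d2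
  have hpi0 : 0 < Real.pi := Real.pi_pos
  have h0 : 0 ≤ 2 * Real.pi * t := by positivity
  have h1 : 2 * Real.pi * t ≤ 12.6 * n := by nlinarith
  have h2 : √(2 * Real.pi * t) ≤ 3.55 * n := by
    rw [Real.sqrt_le_iff]
    refine ⟨by positivity, ?_⟩
    nlinarith
  have h3 : √(2 * Real.pi * t) * √(2 * Real.pi * t) = 2 * Real.pi * t := Real.mul_self_sqrt h0
  nlinarith [Real.sqrt_nonneg (2 * Real.pi * t)]

lemma TSI_aux {n : ℕ} {C : Set (E n)} {t b : ℝ} (hBMI : BMI_stmt) (hLYI : LYI_stmt)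
    (hcomp : IsCompact C) (hne : C.Nonempty) (hfin : NN C 1 ≠ ∞) (ht : 0 < t) {M : ℝ≥0∞}
    (haV : ∀ ρ : ℝ, 0 ≤ ρ → NN C ρ ≤ ENNReal.ofReal (Real.exp (2 * b * (ρ - 1))) * NN C 1)
    (hM : ∫⁻ u in Ioi (0 : ℝ), ENNReal.ofReal (t * u * Real.exp (t / 2 - t * u ^ 2 / 2)) *
      ENNReal.ofReal (Real.exp (b * (u - 1))) ≤ M) (hMf : M ≠ ∞) (z : E n) :
    IZ C z t ≤ M * M * NN C 1 := by
  refine (hLYI n C z t hcomp hne ht).trans ?_
  have hvol : ∀ u v : ℝ, 0 < u → 0 < v → volume (AZ C z u v) ≤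
      ENNReal.ofReal (Real.exp (b * (u - 1))) * (ENNReal.ofReal (Real.exp (b * (v - 1))) * NN C 1) := by
    intro u v hu hv
    refine (hBMI n C z u v hcomp hne).trans ?_
    have h1 : volume (AZ C z ((u + v) / 2) ((u + v) / 2)) ≤ NN C ((u + v) / 2) :=
      le_iSup (fun z : E n => volume (AZ C z ((u + v) / 2) ((u + v) / 2))) z
    refine h1.trans ((haV _ (by positivity)).trans ?_)
    rw [← mul_assoc, ← ENNReal.ofReal_mul (Real.exp_pos _).le, ← Real.exp_add]
    have h2 : 2 * b * ((u + v) / 2 - 1) = b * (u - 1) + b * (v - 1) := by ring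
    rw [h2]
  calc ∫⁻ u in Ioi (0 : ℝ), ∫⁻ v in Ioi (0 : ℝ),
        ENNReal.ofReal (t * u * Real.exp (t / 2 - t * u ^ 2 / 2)) *
          (ENNReal.ofReal (t * v * Real.exp (t / 2 - t * v ^ 2 / 2)) * volume (AZ C z u v))
      ≤ ∫⁻ u in Ioi (0 : ℝ), ∫⁻ v in Ioi (0 : ℝ),
        (ENNReal.ofReal (t * u * Real.exp (t / 2 - t * u ^ 2 / 2)) *
          ENNReal.ofReal (Real.exp (b * (u - 1)))) *
          ((ENNReal.ofReal (t * v * Real.exp (t / 2 - t * v ^ 2 / 2)) *
          ENNReal.ofReal (Real.exp (b * (v - 1)))) * NN C 1) := by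
        apply lintegral_mono_ae
        filter_upwards [ae_restrict_mem measurableSet_Ioi] with u hu
        apply lintegral_mono_ae
        filter_upwards [ae_restrict_mem measurableSet_Ioi] with v hv
        calc ENNReal.ofReal (t * u * Real.exp (t / 2 - t * u ^ 2 / 2)) *
              (ENNReal.ofReal (t * v * Real.exp (t / 2 - t * v ^ 2 / 2)) * volume (AZ C z u v))
            ≤ ENNReal.ofReal (t * u * Real.exp (t / 2 - t * u ^ 2 / 2)) *
              (ENNReal.ofReal (t * v * Real.exp (t / 2 - t * v ^ 2 / 2)) *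
              (ENNReal.ofReal (Real.exp (b * (u - 1))) *
              (ENNReal.ofReal (Real.exp (b * (v - 1))) * NN C 1))) := by
              gcongr
              exact hvol u v hu hv
          _ = _ := by ring
    _ = ∫⁻ u in Ioi (0 : ℝ), (ENNReal.ofReal (t * u * Real.exp (t / 2 - t * u ^ 2 / 2)) *
          ENNReal.ofReal (Real.exp (b * (u - 1)))) *
          ((∫⁻ v in Ioi (0 : ℝ), ENNReal.ofReal (t * v * Real.exp (t / 2 - t * v ^ 2 / 2)) *
          ENNReal.ofReal (Real.exp (b * (v - 1)))) * NN C 1) := by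
        refine lintegral_congr fun u => ?_
        rw [lintegral_const_mul' _ _ (ENNReal.mul_ne_top ENNReal.ofReal_ne_top
          ENNReal.ofReal_ne_top), lintegral_mul_const' _ _ hfin]
    _ ≤ ∫⁻ u in Ioi (0 : ℝ), (ENNReal.ofReal (t * u * Real.exp (t / 2 - t * u ^ 2 / 2)) *
          ENNReal.ofReal (Real.exp (b * (u - 1)))) * (M * NN C 1) := by
        gcongr
    _ = (∫⁻ u in Ioi (0 : ℝ), ENNReal.ofReal (t * u * Real.exp (t / 2 - t * u ^ 2 / 2)) *
          ENNReal.ofReal (Real.exp (b * (u - 1)))) * (M * NN C 1) :=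
        lintegral_mul_const' _ _ (ENNReal.mul_ne_top hMf hfin)
    _ ≤ M * (M * NN C 1) := by gcongr
    _ = M * M * NN C 1 := (mul_assoc _ _ _).symm

theorem TSI (hPNI : PNI_stmt) (hBMI : BMI_stmt) (hSLI : SLI_stmt) (hLYI : LYI_stmt)
    (hGAI : GAI_stmt) : TSI_stmt := by
  intro n C hn hC
  obtain ⟨_, hNf, _, _⟩ := hPNI n C hC
  obtain ⟨a, ha0, ha4, haV⟩ := hSLI n C hC
  have hcomp : IsCompact C := hC.2.1
  have hne : C.Nonempty := hC.1
  have hn1 : (1 : ℝ) ≤ n := by exact_mod_cast hn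
  rcases ha0.eq_or_lt with ha | ha
  · subst ha
    refine ⟨1, one_pos, by linarith, iSup_le fun z => ?_⟩
    have h1 := TSI_aux (b := 0) (M := ENNReal.ofReal 1.7) hBMI hLYI hcomp hne (hNf 1).ne one_pos
      (by simpa using haV) (by simpa using hGAI.2) ENNReal.ofReal_ne_top z
    refine h1.trans ?_
    rw [← ENNReal.ofReal_mul (by norm_num)]
    have h4 : (1.7 : ℝ) * 1.7 ≤ 31 * (n : ℝ) := by linarith
    exact mul_le_mul_left (ENNReal.ofReal_le_ofReal h4) _
  · refine ⟨a / 2, by positivity, by linarith, iSup_le fun z => ?_⟩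
    have h1 := TSI_aux (b := a / 2) (M := ENNReal.ofReal (2 + √(2 * Real.pi * (a / 2)))) hBMI hLYI
      hcomp hne (hNf 1).ne (t := a / 2) (by positivity)
      (by
        intro ρ hρ
        rw [show 2 * (a / 2) = a by ring]
        exact haV ρ hρ)
      (hGAI.1 (a / 2) (by positivity)) ENNReal.ofReal_ne_top z
    refine h1.trans ?_
    rw [← ENNReal.ofReal_mul (by positivity)]
    exact mul_le_mul_left (ENNReal.ofReal_le_ofReal (TSI_num hn (by positivity) (by linarith))) _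

end Pool.Agent.CI
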